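import Pool.Agent.MP_3ee8cb_gt.CZ.Spec
import Pool.Agent.MP_3ee8cb_gt.CZP.Glue
import Pool.Agent.MP_3ee8cb_gt.D3LM.Lip

/-! The strong fibre inequality for one front. -/

namespace Pool.Agent.MP_3ee8cb_gt.CZ

open Set Filter Topology MeasureTheory D3
open D3AR (un)
open D3GB (bv)
open D3MO (S2)
open D3NB (Ph)
open scoped RealInnerProductSpace ENNReal

namespace RFibs

variable {m : MF} {lg : V × V → V} {σ : V → V × V} {a hi : ℝ} {b : V × V → V → ℝ}
  {K : V → V} {Om Om0 : Set V}

theorem b02 : (bv 0 : V) 2 = 0 := by simp [bv]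

theorem b12 : (bv 1 : V) 2 = 0 := by simp [bv]

theorem b0 : (bv 0 : V) ≠ 0 := fun h => by
  have : (bv 0 : V) 0 = 0 := by rw [h]; rfl
  simp [bv] at this

/-- The front stays near a point for short times. -/
theorem near (hl : m.Had lg) (A : Atl K Om Om0) (G : Geo m σ a K Om) :
    ∃ D, ∀ u ∈ Om, |u 2| ≤ 1 → ‖lg ((PK m σ K u).1, 0)‖ ≤ D := by
  obtain ⟨Q, hQ, QO, h⟩ := A.cpt 1
  obtain ⟨D, hD⟩ := hQ.exists_bound_of_continuousOn (f := fun u => lg ((PK m σ K u).1, 0))
    (hl.c1.continuous.comp_continuousOn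
      (((G.lip.continuousOn.mono QO).fst).prodMk continuousOn_const))
  refine ⟨D, fun u hu h1 => ?_⟩
  obtain ⟨v, hv, e⟩ := A.bij.surjOn (show K u ∈ {q | q ≠ 0} from norm_ne_zero_iff.1 (by
    rw [A.nrm u hu]
    exact (Real.exp_pos _).ne'))
  have e2 : v 2 = u 2 := Real.exp_injective (by rw [← A.nrm v (A.sub hv), ← A.nrm u hu, e])
  have := hD v (h v hv (e2 ▸ h1))
  rwa [PK, e] at this

theorem bd (o : m.OK) (A : Atl K Om Om0) (G : Geo m σ a K Om) :
    ∃ L, ∀ u ∈ Om0, u 2 = 0 → ∀ i,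
      ‖m.hor (PK m σ K u) (fderiv ℝ (PK m σ K) u (bv i))‖ ≤ L := by
  obtain ⟨Q, hQ, QO, h⟩ := A.cpt 0
  obtain ⟨M, hM⟩ := D3LM.bdd_fderiv A.op G.lip hQ QO
  obtain ⟨N, hN⟩ := hQ.exists_bound_of_continuousOn (f := fun u => m.S (PK m σ K u).1)
    (o.cS.continuous.comp_continuousOn (G.lip.continuousOn.mono QO).fst)
  refine ⟨N * M, fun u hu h0 i => ?_⟩
  have hu' := h u hu (by rw [h0, abs_zero])
  have n1 : ‖(bv i : V)‖ = 1 := by simp [bv]
  have k : ‖(fderiv ℝ (PK m σ K) u (bv i)).1‖ ≤ M :=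
    (norm_fst_le _).trans (((fderiv ℝ (PK m σ K) u).le_opNorm _).trans (by
      rw [n1, mul_one]
      exact hM u hu'))
  exact ((m.S (PK m σ K u).1).le_opNorm _).trans
    (mul_le_mul (hN u hu') k (norm_nonneg _) ((norm_nonneg _).trans (hN u hu')))

/-- The front leaves compact sets. -/
theorem far {T : V → S2 → S2} {G : V → S2 → V} (X : Tx m σ b T G) {Q : Set V} (hQ : IsCompact Q) :
    ∃ R, 0 < R ∧ ∀ q : V, q ≠ 0 → (Ph m σ q).1 ∈ Q → |Real.log ‖q‖| < R := by
  obtain ⟨M, hM⟩ := (hQ.prod (isCompact_univ (X := S2))).exists_bound_of_continuousOn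
    X.ts.cb.continuousOn
  refine ⟨|M| + 1, by positivity, fun q hq h => ?_⟩
  have n : ‖‖q‖⁻¹ • q‖ = 1 := norm_smul_inv_norm (𝕜 := ℝ) hq
  let p : S2 := ⟨‖q‖⁻¹ • q, by simpa using n⟩
  have := hM ((Ph m σ q).1, p) ⟨h, trivial⟩
  have e : bS b σ (Ph m σ q).1 p = Real.log ‖q‖ := X.val p _
  dsimp only at this
  rw [e, Real.norm_eq_abs] at this
  linarith [le_abs_self M]

end RFibs

open RFibs in
theorem rFIBS : R_FIBS := by
  intro pt zm ray ty pz gb fib m lg σ a hi b T G K Om Om0 d g hg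
  have pt := pt m lg σ a hi b T G K Om Om0 d
  have zm := zm m lg σ a hi b T G K Om Om0 d
  have ray := ray m lg σ a hi b T G K Om Om0 d
  have ty := ty m lg σ a hi b T G K Om Om0 d
  have pz := pz m lg σ a hi b T G K Om Om0 d
  have gb := gb m lg σ a hi b T G K Om Om0 d
  have A := d.atl
  obtain ⟨D, hD⟩ := near d.had A d.geo
  obtain ⟨L, hL⟩ := bd d.ok A d.geo
  have c2 : Continuous fun u : V => u 2 := by fun_prop
  have df := D3LM.ae_diff (volume : Measure V) A.op d.geo.lip
  have mS : MeasurableSet (Sl Om0) := A.ms.inter (c2.measurable measurableSet_Icc)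
  have S : CZH.Sh m lg Om Om0 (Zs m σ b K Om0) (PK m σ K) 0 D L (sph fun _ => 1) := by
    refine ⟨A.op, A.sub, A.ms, A.cyl0, fun u hu => (pt u hu).1, fun u hu h0 => ?_, hL, ?_, ?_, zm,
      fun u hu => hu.1, ?_, ?_, pz, fun χ c1 cs h1 => ?_⟩
    · have := hD u (A.sub hu) (by rw [h0, abs_zero]; exact zero_le_one)
      exact this
    · obtain ⟨Q, hQ, -, h⟩ := A.cpt 1
      exact ((measure_mono fun u hu => h u hu.1 (abs_le.2 ⟨by linarith [hu.2.1], hu.2.2⟩)).trans_lt
        hQ.measure_lt_top).ne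
    · filter_upwards [df] with u hu h0
      have w := (pt u (A.sub h0)).2 (hu (A.sub h0))
      exact ⟨hu (A.sub h0), (w.leg _).trans b02, (w.leg _).trans b12,
        ((w.sym _ _ b02 b12).symm.trans (real_inner_comm _ _)),
        d.geo.pos u (A.sub h0) (hu (A.sub h0))⟩
    · filter_upwards [df] with u hu h0
      have w := (pt u (A.sub h0)).2 (hu (A.sub h0))
      refine ⟨{t | ∃ s, t ≤ s ∧ u + s • bv 2 ∈ Zs m σ b K Om0},
        fun t t' h ⟨s, h1, h2⟩ => ⟨s, h.trans h1, h2⟩, ?_⟩
      filter_upwards [compl_mem_ae_iff.2 (w.zer.measure_zero volume)] with t ht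
      refine ⟨fun h => ⟨t, le_rfl, h⟩, fun ⟨s, h1, h2⟩ => ?_⟩
      have e : u + s • bv 2 + (t - s) • bv 2 = u + t • bv 2 := by
        rw [add_assoc, ← add_smul, add_sub_cancel]
      have := ray _ h2 (t - s) (sub_nonpos.2 h1)
      rw [e] at this
      exact this ht
    · filter_upwards [df] with u hu h0 hd
      have w := (pt u (A.sub h0)).2 (hu (A.sub h0))
      have t := ty u h0 (hu (A.sub h0))
      have e : nf m (PK m σ K) u (bv 0) = -CZH.hj m (PK m σ K) 0 0 u / 2 := by
        rw [nf, real_inner_comm]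
        rfl
      rcases w.dp hd with k | k
      · have := k _ b02 b0
        exact iff_of_true (t.1 k).1 (by linarith)
      · have := k _ b02 b0
        exact iff_of_false (t.2.1 k).1 (by linarith)
    · obtain ⟨R, R0, hR⟩ := far d.tx cs
      have e : ∀ u ∈ Om, (if Real.log ‖K u‖ ≤ 0 then χ (Ph m σ (K u)).1 else 1) =
          CZH.zt (PK m σ K) χ u := fun u hu => by
        rw [A.nrm u hu, Real.log_exp]
        rfl
      have one : ∀ u ∈ Om, |u 2| ≤ 1 → χ (PK m σ K u).1 = 1 := fun u hu k =>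
        h1 _ ((hD u hu k).trans (by linarith))
      have l := CZP.ll_c1 (c1.comp contDiff_fst) d.geo.lip
      have := gb (fun q => if Real.log ‖q‖ ≤ 0 then χ (Ph m σ q).1 else 1) R (fun u hu => ?_)
        (fun q hq k => ?_) fun q hq k => if_neg (by linarith)
      · have e2 : EqOn (CZH.eul m (PK m σ K) fun u => if Real.log ‖K u‖ ≤ 0 then
            χ (Ph m σ (K u)).1 else 1) (CZH.eul m (PK m σ K) (CZH.zt (PK m σ K) χ)) Om0 :=
          fun u hu => by
            have : (fun u => if Real.log ‖K u‖ ≤ 0 then χ (Ph m σ (K u)).1 else 1) =ᶠ[𝓝 u]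
                CZH.zt (PK m σ K) χ := by
              filter_upwards [A.op.mem_nhds (A.sub hu)] with v hv using e v hv
            simp only [CZH.eul, this.fderiv_eq]
        exact ⟨this.1.congr_fun e2 A.ms, (setIntegral_congr_fun A.ms e2).symm.trans_le this.2⟩
      · rcases le_total (u 2) 0 with k | k
        · obtain ⟨M, t, ht, hM⟩ := l hu
          refine ⟨M, t ∩ (Om ∩ {v | v 2 < 1}), inter_mem ht (inter_mem self_mem_nhdsWithin
            (nhdsWithin_le_nhds ((isOpen_lt c2 continuous_const).mem_nhds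
              (show u 2 < 1 by linarith)))), ?_⟩
          have e3 : ∀ v ∈ t ∩ (Om ∩ {v | v 2 < 1}), (if Real.log ‖K v‖ ≤ 0 then
              χ (Ph m σ (K v)).1 else 1) = χ (PK m σ K v).1 := fun v hv => by
            rw [e v hv.2.1, CZH.zt]
            split_ifs with k
            · rfl
            · exact (one v hv.2.1 (abs_le.2 ⟨by linarith, le_of_lt hv.2.2⟩)).symm
          intro x hx y hy
          dsimp only
          rw [e3 x hx, e3 y hy]
          exact hM hx.1 hy.1
        · refine ⟨0, Om ∩ {v | -1 < v 2}, inter_mem self_mem_nhdsWithin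
            (nhdsWithin_le_nhds ((isOpen_lt continuous_const c2).mem_nhds
              (show -1 < u 2 by linarith))), ?_⟩
          have e3 : ∀ v ∈ Om ∩ {v | -1 < v 2}, (if Real.log ‖K v‖ ≤ 0 then
              χ (Ph m σ (K v)).1 else 1) = 1 := fun v hv => by
            rw [e v hv.1, CZH.zt]
            split_ifs with k
            · exact one v hv.1 (abs_le.2 ⟨le_of_lt hv.2, by linarith⟩)
            · rfl
          intro x hx y hy
          dsimp only
          rw [e3 x hx, e3 y hy, edist_self]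
          exact zero_le
      · rw [if_pos (by linarith)]
        refine image_eq_zero_of_notMem_tsupport fun h => ?_
        have := hR q hq h
        linarith [neg_abs_le (Real.log ‖q‖), le_abs_self (Real.log ‖q‖), neg_le_abs (Real.log ‖q‖)]
  have := fib m lg Om Om0 _ _ 0 D L _ (a ^ 2) hi d.ok d.jac d.c2 d.had (pow_pos d.a0 2) d.up d.dn S
    ((Sl Om0).indicator g) (by
      filter_upwards [hg] with u hu _ h
      have h1 : u ∈ Sl Om0 := by
        by_contra k
        exact h (indicator_of_notMem k _)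
      rw [indicator_of_mem h1] at h ⊢
      exact hu h1 h)
  have e : ENNReal.ofReal (sph fun _ => 1) = (volume : Measure V).toSphere univ := by
    rw [sph, integral_const, smul_eq_mul, mul_one, ofReal_measureReal]
  rw [e] at this
  exact (setLIntegral_congr_fun mS fun u hu => (indicator_of_mem hu g).symm).trans_le this

end Pool.Agent.MP_3ee8cb_gt.CZ
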